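import Pool.Agent.Lib.MP_4d5ce1_nt.Red.Final

set_option autoImplicit false

open NumberField IsDedekindDomain Polynomial

open Pool.Agent.Lib.MP_4d5ce1_nt Pool.Agent.Lib.MP_4d5ce1_nt.Red in
/-- The conjecture over a number field `K` is equivalent to the inequality for the three points
`0, 1, ∞`, restricted to the values `x = F z` of a fixed Belyi map `F = A / B` over `K` with
`F 0 = 0`, `F 1, F ∞ ∈ {0, 1, ∞}`, at points `z` which are arbitrarily close to `0` at all
infinite places and at all places of a given finite set `T`. -/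
theorem Pool.Agent.Results.MP_4d5ce1_nt.NearCuspReduction.result :
    ∀ (K : Type) [Field K] [NumberField K] (T : Set (HeightOneSpectrum (𝓞 K))), T.Finite →
      ∀ δ : ℝ, 0 < δ → ∀ A B : K[X], IsCoprime A B →
        1 ≤ max A.natDegree B.natDegree →
        (∀ β : AlgebraicClosure K, aeval β (derivative A * B - A * derivative B) = 0 →
          aeval β (A * B * (A - B)) = 0) →
        A.eval 0 = 0 → (A * B * (A - B)).eval 1 = 0 →
        (A * B * (A - B)).natDegree < 3 * max A.natDegree B.natDegree →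
        ((∀ (S : Set (HeightOneSpectrum (𝓞 K))), S.Finite → ∀ (q : ℕ) (α : Fin q → K × K),
            (∀ i, α i ≠ 0) → (∀ i j, i ≠ j → (α i).1 * (α j).2 - (α i).2 * (α j).1 ≠ 0) →
            ∀ ε : ℝ, 0 < ε → ∃ C : ℝ, ∀ x : K × K, x ≠ 0 →
              (∀ l, x.1 * (α l).2 - x.2 * (α l).1 ≠ 0) →
              ((q : ℝ) - 2 - ε) * ht x ≤ trunc S α x + C) ↔
          (∀ ε : ℝ, 0 < ε → ∃ C : ℝ, ∀ z x : K,
            (∀ w : InfinitePlace K, w z < δ) → (∀ v ∈ T, FinitePlace.mk v z < δ) →
            B.eval z ≠ 0 → x = A.eval z / B.eval z → x ≠ 0 → x ≠ 1 →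
            (1 - ε) * ht (x, 1) ≤ trunc ∅ ![((0 : K), (1 : K)), (1, 1), (1, 0)] (x, 1) + C)) := by
  intro K _ _ T hT δ hδ A B hco hdeg hcrit h0 h1 hinf
  constructor
  · intro h ε hε
    obtain ⟨C, hC⟩ := h ∅ Set.finite_empty 3 ![((0 : K), (1 : K)), (1, 1), (1, 0)]
      (by
        intro i
        fin_cases i <;> simp)
      (by
        intro i j hij
        fin_cases i <;> fin_cases j <;> first | exact absurd rfl hij | simp)
      ε hε
    refine ⟨C, fun z x _ _ _ _ hx0 hx1 => ?_⟩
    have := hC (x, 1) (by simp) (by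
      intro l
      fin_cases l
      · simpa using hx0
      · simpa [sub_eq_zero] using hx1
      · simp)
    have e : (((3 : ℕ) : ℝ) - 2 - ε) = 1 - ε := by norm_num
    rw [e] at this
    exact this
  · intro h S hS q α _ hα ε hε
    have hgood : Good A B (max A.natDegree B.natDegree) := by
      refine good_of_belyi A B hco hdeg hcrit hinf ?_ h1
      simp [h0]
    have hd := finrank_pos' (K := K)
    have hyp : ∀ ε : ℝ, 0 < ε →
        Holds ε {x : K | ∃ z, B.eval z ≠ 0 ∧ x = A.eval z / B.eval z ∧ N0 δ T z} := by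
      intro ε hε
      obtain ⟨C, hC⟩ := h ε hε
      refine ⟨(Module.finrank ℚ K : ℝ) * C, ?_⟩
      rintro x ⟨z, hBz, hx, hz1, hz2⟩ hx0 hx1
      have h2 := hC z x hz1 hz2 hBz hx hx0 hx1
      have h3 := trunc_cusps_le hx0 hx1
      rw [ht_eq_hh, hh_pair_one] at h2
      have h4 : (Module.finrank ℚ K : ℝ) * ((1 - ε) * (lh x / (Module.finrank ℚ K : ℝ))) ≤
          (Module.finrank ℚ K : ℝ) *
            (trunc ∅ ![((0 : K), (1 : K)), (1, 1), (1, 0)] (x, 1) + C) :=
        mul_le_mul_of_nonneg_left h2 hd.le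
      have h5 : (Module.finrank ℚ K : ℝ) * ((1 - ε) * (lh x / (Module.finrank ℚ K : ℝ))) =
          (1 - ε) * lh x := by
        field_simp
      rw [h5, mul_add] at h4
      exact h4.trans (by
        have : (Module.finrank ℚ K : ℝ) *
            trunc ∅ ![((0 : K), (1 : K)), (1, 1), (1, 0)] (x, 1) ≤ wt (cl x) := h3
        linarith)
    have hall := reduction hT hδ hgood hyp
    exact q_one (VV.three hall) S hS q α hα ε hε
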